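import Pool.Agent.H11.T4.Stmts

/-! Module TOP of project T4. -/

open Finset

namespace Pool.T4

/-- the closed simplex with vertex set `s` -/
def topS {n : ℕ} (s : Finset (Fin n)) : Set (Fin n → ℝ) :=
  {p | (∀ i, 0 ≤ p i) ∧ ∑ i, p i = 1 ∧ ∀ i, i ∉ s → p i = 0}

theorem topS_subset {n : ℕ} (K : Cx n) {s : Finset (Fin n)} (hs : s ∈ K.faces) :
    topS s ⊆ Geom K := by
  intro p hp
  refine ⟨hp.1, hp.2.1, ?_⟩
  have h1 : (univ.filter fun i => p i ≠ 0) ⊆ s := by
    intro i hi
    rw [mem_filter] at hi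
    by_contra h
    exact hi.2 (hp.2.2 i h)
  have h2 : (univ.filter fun i => p i ≠ 0).Nonempty := by
    by_contra h
    rw [not_nonempty_iff_eq_empty] at h
    have h3 : ∑ i, p i = 0 := by
      apply sum_eq_zero
      intro i _
      by_contra h4
      have : i ∈ (univ.filter fun i => p i ≠ 0) := by simp [h4]
      rw [h] at this
      simp at this
    rw [hp.2.1] at h3
    exact one_ne_zero h3
  exact (K.isRelLowerSet_faces hs).2 h1 h2

theorem topS_mem {n : ℕ} (K : Cx n) {p : Fin n → ℝ} (hp : p ∈ Geom K) :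
    p ∈ topS (univ.filter fun i => p i ≠ 0) := by
  refine ⟨hp.1, hp.2.1, ?_⟩
  intro i hi
  by_contra h
  exact hi (by simp [h])

theorem topS_convex {n : ℕ} (s : Finset (Fin n)) : Convex ℝ (topS s) := by
  intro p hp q hq a b ha hb hab
  refine ⟨fun i => ?_, ?_, fun i hi => ?_⟩
  · simp only [Pi.add_apply, Pi.smul_apply, smul_eq_mul]
    exact add_nonneg (mul_nonneg ha (hp.1 i)) (mul_nonneg hb (hq.1 i))
  · simp only [Pi.add_apply, Pi.smul_apply, smul_eq_mul]
    rw [sum_add_distrib, ← mul_sum, ← mul_sum, hp.2.1, hq.2.1]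
    linarith
  · simp only [Pi.add_apply, Pi.smul_apply, smul_eq_mul]
    rw [hp.2.2 i hi, hq.2.2 i hi]
    simp

theorem topS_single {n : ℕ} {s : Finset (Fin n)} {v : Fin n} (hv : v ∈ s) :
    (Pi.single v 1 : Fin n → ℝ) ∈ topS s := by
  refine ⟨fun i => ?_, ?_, fun i hi => ?_⟩
  · by_cases h : i = v
    · subst h; simp
    · simp [h]
  · simp
  · have : i ≠ v := by
      rintro rfl
      exact hi hv
    simp [this]

theorem topS_joined {n : ℕ} (K : Cx n) {s : Finset (Fin n)} (hs : s ∈ K.faces)
    {p q : Fin n → ℝ} (hp : p ∈ topS s) (hq : q ∈ topS s) : JoinedIn (Geom K) p q :=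
  (((topS_convex s).isPathConnected ⟨p, hp⟩).joinedIn p hp q hq).mono (topS_subset K hs)

theorem top_path {n : ℕ} (K : Cx n) : ∀ {u v : Fin n}, EPath K u v →
    JoinedIn (Geom K) (Pi.single u 1 : Fin n → ℝ) (Pi.single v 1 : Fin n → ℝ)
  | u, _, .nil _ => JoinedIn.refl (topS_subset K (K.singleton_mem u) (topS_single (by simp)))
  | _, _, @EPath.cons _ _ u v w h p =>
    (topS_joined K h (topS_single (by simp)) (topS_single (by simp))).trans (top_path K p)

theorem top : TOPStmt := by
  intro n K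
  have hclosed : IsClosed (Geom K) := by
    have h1 : Geom K = ⋃ s ∈ K.faces, topS s := by
      ext p
      constructor
      · intro hp
        exact Set.mem_biUnion hp.2.2 (topS_mem K hp)
      · intro hp
        rw [Set.mem_iUnion₂] at hp
        obtain ⟨s, hs, hps⟩ := hp
        exact topS_subset K hs hps
    rw [h1]
    apply Set.Finite.isClosed_biUnion (Set.toFinite _)
    intro s _
    have h2 : topS s = (⋂ i, {p : Fin n → ℝ | 0 ≤ p i}) ∩ ({p | ∑ i, p i = 1} ∩
        ⋂ i, ⋂ (_ : i ∉ s), {p : Fin n → ℝ | p i = 0}) := by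
      ext p
      simp [topS]
    rw [h2]
    refine (isClosed_iInter fun i => isClosed_le continuous_const (continuous_apply i)).inter
      ((isClosed_eq (by fun_prop) continuous_const).inter
        (isClosed_iInter fun i => isClosed_iInter fun _ => isClosed_eq (continuous_apply i)
          continuous_const))
  have hcomp : IsCompact (Geom K) := by
    refine IsCompact.of_isClosed_subset (isCompact_Icc (a := (0 : Fin n → ℝ)) (b := 1)) hclosed ?_
    intro p hp
    refine ⟨fun i => hp.1 i, fun i => ?_⟩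
    have h1 := single_le_sum (f := p) (fun j _ => hp.1 j) (mem_univ i)
    rw [hp.2.1] at h1
    exact h1
  refine ⟨isCompact_iff_compactSpace.1 hcomp, inferInstance, ?_⟩
  intro v₀ hv
  rw [← isPathConnected_iff_pathConnectedSpace]
  refine ⟨Pi.single v₀ 1, topS_subset K (K.singleton_mem v₀) (topS_single (by simp)), ?_⟩
  intro y hy
  have hs : (univ.filter fun i => y i ≠ 0) ∈ K.faces := hy.2.2
  obtain ⟨v, hvs⟩ := (K.isRelLowerSet_faces hs).1
  obtain ⟨e⟩ := hv v
  exact (top_path K e).trans (topS_joined K hs (topS_single hvs) (topS_mem K hy))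

end Pool.T4
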